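import Pool.Agent.H6.ST.St

/-! # The sharp trichotomy (ST): orientation, statements -/

namespace Pool.Agent.H6.ST

open MeasureTheory Set Pool.Agent.H68.VD Pool.Agent.H68.GM
open scoped ENNReal ContDiff

noncomputable section

/-- The sign of the Jacobian determinant is constant. -/
def ORsign : Prop := ∀ (S : Type) [TopologicalSpace S] (A B : OpenPartialHomeomorph S (Eu 2)),
  Sph A B →
  (∀ y, y ∈ A.target → A.symm y ∈ B.source → (fderiv ℝ (fun y => B (A.symm y)) y).det = 1) ∨
  (∀ y, y ∈ A.target → A.symm y ∈ B.source → (fderiv ℝ (fun y => B (A.symm y)) y).det = -1)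

/-- The orientation of the second chart can be changed. -/
def ORrefl : Prop := ∀ (S : Type) [TopologicalSpace S] (A B : OpenPartialHomeomorph S (Eu 2)),
  Sph A B →
  (∀ y, y ∈ A.target → A.symm y ∈ B.source → (fderiv ℝ (fun y => B (A.symm y)) y).det = -1) →
  ∃ B' : OpenPartialHomeomorph S (Eu 2), Sph A B' ∧
    ∀ y, y ∈ A.target → A.symm y ∈ B'.source → (fderiv ℝ (fun y => B' (A.symm y)) y).det = 1

/-- The product atlas is oriented. -/
def ORprod : Prop := ∀ (S : Type) [TopologicalSpace S] (A B : OpenPartialHomeomorph S (Eu 2)),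
  Sph A B →
  (∀ y, y ∈ A.target → A.symm y ∈ B.source → (fderiv ℝ (fun y => B (A.symm y)) y).det = 1) →
  ∀ i j : Fin 2 × Fin 2, ∀ y ∈ dom (pch A B) i j, (fderiv ℝ (tr (pch A B) i j) y).det = 1

end

end Pool.Agent.H6.ST
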