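import Pool.Agent.H6.ST.OR.Defs
import Pool.Agent.H23.ST.PchV

/-! # The sharp trichotomy (ST), row ST-OR3: the product atlas is oriented -/

set_option autoImplicit false

namespace Pool.Agent.H6.ST

open MeasureTheory Set Pool.Agent.H68.VD Pool.Agent.H68.GM
open Pool.Agent.H23.ST (stg7J stg7C stg7D stg7T stg7_open stg7_self stg7_inv stg7_diff stg7_chain
  stg7_dom)
open scoped ENNReal ContDiff Topology

theorem or3_det {S : Type} [TopologicalSpace S] {A B : OpenPartialHomeomorph S (Eu 2)}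
    (h : Sph A B)
    (hd : ∀ y, y ∈ A.target → A.symm y ∈ B.source → (fderiv ℝ (fun y => B (A.symm y)) y).det = 1)
    (a b : Fin 2) {y : Eu 2} (hy : y ∈ stg7D A B a b) : (fderiv ℝ (stg7T A B a b) y).det = 1 := by
  have h01 : ∀ y ∈ stg7D A B 0 1, (fderiv ℝ (stg7T A B 0 1) y).det = 1 := by
    intro y hy
    exact hd y hy.1 hy.2
  by_cases hab : a = b
  · subst hab
    have h4 : HasFDerivAt (stg7T A B a a) (ContinuousLinearMap.id ℝ (Eu 2)) y := by
      refine (hasFDerivAt_id y).congr_of_eventuallyEq ?_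
      filter_upwards [(stg7_open A B a a).mem_nhds hy] with z hz
      exact stg7_self A B a hz
    rw [h4.fderiv]
    simp [ContinuousLinearMap.det]
  · by_cases ha : a = 0
    · have hb : b = 1 := by
        fin_cases a <;> fin_cases b <;> simp_all
      subst ha hb
      exact h01 y hy
    · have ha1 : a = 1 := by
        fin_cases a <;> simp_all
      have hb : b = 0 := by
        fin_cases a <;> fin_cases b <;> simp_all
      subst ha1 hb
      have h1 := stg7_chain h 1 0 hy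
      rw [h01 _ (stg7_inv A B 1 0 hy).1, one_mul] at h1
      exact h1

theorem or_prod : ORprod := by
  intro S _ A B h hd i j y hy
  obtain ⟨hy1, hy2⟩ := (stg7_dom A B i j y).1 hy
  have e1 := (stg7_diff h i.1 j.1 hy1).hasFDerivAt
  have e2 := (stg7_diff h i.2 j.2 hy2).hasFDerivAt
  have e3 : HasFDerivAt (fun q : Eu 2 × Eu 2 => (stg7T A B i.1 j.1 q.1, stg7T A B i.2 j.2 q.2))
      ((fderiv ℝ (stg7T A B i.1 j.1) (stg7J.symm y).1).prodMap
        (fderiv ℝ (stg7T A B i.2 j.2) (stg7J.symm y).2)) (stg7J.symm y) :=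
    HasFDerivAt.prodMap (stg7J.symm y) e1 e2
  have e4 : HasFDerivAt (tr (pch A B) i j)
      ((stg7J : (Eu 2 × Eu 2) →L[ℝ] Eu 4).comp
        (((fderiv ℝ (stg7T A B i.1 j.1) (stg7J.symm y).1).prodMap
        (fderiv ℝ (stg7T A B i.2 j.2) (stg7J.symm y).2)).comp
          (stg7J.symm : Eu 4 →L[ℝ] (Eu 2 × Eu 2)))) y :=
    (stg7J.hasFDerivAt).comp y (e3.comp y stg7J.symm.hasFDerivAt)
  rw [e4.fderiv]
  have e5 : ((stg7J : (Eu 2 × Eu 2) →L[ℝ] Eu 4).comp
        (((fderiv ℝ (stg7T A B i.1 j.1) (stg7J.symm y).1).prodMap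
        (fderiv ℝ (stg7T A B i.2 j.2) (stg7J.symm y).2)).comp
          (stg7J.symm : Eu 4 →L[ℝ] (Eu 2 × Eu 2)))).det =
      (fderiv ℝ (stg7T A B i.1 j.1) (stg7J.symm y).1).det *
        (fderiv ℝ (stg7T A B i.2 j.2) (stg7J.symm y).2).det := by
    have e6 := LinearMap.det_conj
      (((fderiv ℝ (stg7T A B i.1 j.1) (stg7J.symm y).1) : Eu 2 →ₗ[ℝ] Eu 2).prodMap
        ((fderiv ℝ (stg7T A B i.2 j.2) (stg7J.symm y).2) : Eu 2 →ₗ[ℝ] Eu 2))
      stg7J.toLinearEquiv
    rw [LinearMap.det_prodMap] at e6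
    exact e6
  rw [e5, or3_det h hd i.1 j.1 hy1, or3_det h hd i.2 j.2 hy2, one_mul]

end Pool.Agent.H6.ST
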