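import Pool.Agent.H6.ST.OR.Defs

/-! # The sharp trichotomy (ST): the sign of the Jacobian determinant of the transition map -/

namespace Pool.Agent.H6.ST

open MeasureTheory Set Pool.Agent.H68.VD Pool.Agent.H68.GM
open scoped ENNReal ContDiff

noncomputable section

/-- The sup norm on `Eu 2`. -/
private def sn (z : Eu 2) : ℝ := ‖(WithLp.ofLp z : Fin 2 → ℝ)‖

private theorem sn_cont : Continuous sn := by
  unfold sn
  exact continuous_norm.comp (PiLp.continuous_ofLp 2 _)

private theorem sn_nonneg (z : Eu 2) : 0 ≤ sn z := norm_nonneg _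

private theorem sn_smul (c : ℝ) (z : Eu 2) : sn (c • z) = |c| * sn z := by
  unfold sn
  rw [WithLp.ofLp_smul, norm_smul, Real.norm_eq_abs]

private theorem sn_lt {z : Eu 2} {r : ℝ} (hr : 0 < r) :
    sn z < r ↔ z ∈ (obox (fun _ => -r) (fun _ => r) : Set (Eu 2)) := by
  unfold sn obox
  rw [pi_norm_lt_iff hr]
  simp only [Real.norm_eq_abs, abs_lt, mem_ofPred_eq]

private theorem rank_two : 1 < Module.rank ℝ (Eu 2) := by
  rw [← Module.finrank_eq_rank]
  have : Module.finrank ℝ (Eu 2) = 2 := by
    simp [Eu]
  rw [this]
  norm_num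

/-- The punctured box is preconnected. -/
private theorem box_punct {r : ℝ} (hr : 0 < r) :
    IsPreconnected ((obox (fun _ => -r) (fun _ => r) : Set (Eu 2)) \ {0}) := by
  have hc : IsPreconnected ({(0 : Eu 2)}ᶜ : Set (Eu 2)) :=
    (isConnected_compl_singleton_of_one_lt_rank rank_two 0).isPreconnected
  have hf : Continuous (fun z : Eu 2 => (r / (1 + sn z)) • z) := by
    refine Continuous.smul (Continuous.div continuous_const
      (continuous_const.add sn_cont) fun z => ?_) continuous_id
    have := sn_nonneg z
    exact (by linarith : (0 : ℝ) < 1 + sn z).ne'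
  have himg : (obox (fun _ => -r) (fun _ => r) : Set (Eu 2)) \ {0} =
      (fun z : Eu 2 => (r / (1 + sn z)) • z) '' ({(0 : Eu 2)}ᶜ : Set (Eu 2)) := by
    ext w
    constructor
    · rintro ⟨hw, h0⟩
      have hm := (sn_lt hr).2 hw
      have hp : 0 < r - sn w := by linarith
      refine ⟨(r - sn w)⁻¹ • w, ?_, ?_⟩
      · intro h
        apply h0
        have h' : (r - sn w)⁻¹ • w = 0 := h
        rcases smul_eq_zero.1 h' with h1 | h1
        · exact absurd h1 (inv_ne_zero hp.ne')
        · exact h1
      · show (r / (1 + sn ((r - sn w)⁻¹ • w))) • ((r - sn w)⁻¹ • w) = w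
        rw [sn_smul, abs_of_pos (inv_pos.2 hp), smul_smul]
        have : r / (1 + (r - sn w)⁻¹ * sn w) * (r - sn w)⁻¹ = 1 := by
          have h1 : 1 + (r - sn w)⁻¹ * sn w = r * (r - sn w)⁻¹ := by
            field_simp
            ring
          rw [h1]
          field_simp
        rw [this, one_smul]
    · rintro ⟨z, hz, rfl⟩
      have hz0 : z ≠ 0 := hz
      have hs := sn_nonneg z
      have h1 : 0 < 1 + sn z := by linarith
      constructor
      · rw [← sn_lt hr]
        show sn ((r / (1 + sn z)) • z) < r
        rw [sn_smul, abs_of_pos (by positivity), div_mul_eq_mul_div, div_lt_iff₀ h1]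
        nlinarith
      · intro h
        have h' : (r / (1 + sn z)) • z = 0 := h
        rcases smul_eq_zero.1 h' with h2 | h2
        · exact absurd h2 (by positivity)
        · exact hz0 h2
  rw [himg]
  exact hc.image _ hf.continuousOn

private theorem box_conv (r : ℝ) :
    Convex ℝ (obox (fun _ => -r) (fun _ => r) : Set (Eu 2)) := by
  intro x hx y hy a b ha hb hab k
  have h1 := hx k
  have h2 := hy k
  show -r < a * x k + b * y k ∧ a * x k + b * y k < r
  rcases ha.eq_or_lt with h | h
  · have hb1 : b = 1 := by linarith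
    rw [← h, hb1]
    constructor <;> linarith [h2.1, h2.2]
  · constructor
    · have e : -r = a * (-r) + b * (-r) := by
        rw [← add_mul, hab, one_mul]
      rw [e]
      have := mul_lt_mul_of_pos_left h1.1 h
      have := mul_le_mul_of_nonneg_left h2.1.le hb
      linarith
    · have e : r = a * r + b * r := by
        rw [← add_mul, hab, one_mul]
      have := mul_lt_mul_of_pos_left h1.2 h
      have := mul_le_mul_of_nonneg_left h2.2.le hb
      linarith

/-- The sign of the Jacobian determinant is constant. -/
theorem or_sign : ORsign := by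
  intro S _ A B hS
  obtain ⟨r, hr, hB⟩ := hS.tgtB
  set g : Eu 2 → Eu 2 := fun y => B (A.symm y) with hg
  set D : Set (Eu 2) := {y | y ∈ A.target ∧ A.symm y ∈ B.source} with hD
  set E : Set (Eu 2) := {z | z ∈ B.target ∧ B.symm z ∈ A.source} with hE
  have hDo : IsOpen D := (A.symm.trans B).open_source
  -- `E` is preconnected
  have hEp : IsPreconnected E := by
    by_cases h0 : B.symm (0 : Eu 2) ∈ A.source
    · have : E = (obox (fun _ => -r) (fun _ => r) : Set (Eu 2)) := by
        rw [← hB]
        ext z
        refine ⟨fun h => h.1, fun h => ⟨h, ?_⟩⟩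
        by_contra hz
        rw [hS.pt z h hz] at hz
        exact hz h0
      rw [this]
      exact (box_conv r).isPreconnected
    · have : E = (obox (fun _ => -r) (fun _ => r) : Set (Eu 2)) \ {0} := by
        rw [← hB]
        ext z
        constructor
        · rintro ⟨h1, h2⟩
          refine ⟨h1, fun hz => h0 ?_⟩
          have hz' : z = 0 := hz
          rw [← hz']
          exact h2
        · rintro ⟨h1, h2⟩
          refine ⟨h1, ?_⟩
          by_contra hz
          exact h2 (hS.pt z h1 hz)
      rw [this]
      exact box_punct hr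
  have hDE : D = (fun z => A (B.symm z)) '' E := by
    ext y
    constructor
    · rintro ⟨h1, h2⟩
      refine ⟨B (A.symm y), ⟨B.map_source h2, ?_⟩, ?_⟩
      · rw [B.left_inv h2]
        exact A.map_target h1
      · show A (B.symm (B (A.symm y))) = y
        rw [B.left_inv h2, A.right_inv h1]
    · rintro ⟨z, ⟨h1, h2⟩, rfl⟩
      refine ⟨A.map_source h2, ?_⟩
      show A.symm (A (B.symm z)) ∈ B.source
      rw [A.left_inv h2]
      exact B.map_target h1
  have hDp : IsPreconnected D := by
    rw [hDE]
    refine hEp.image _ ?_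
    exact hS.smBA.continuousOn
  -- the determinant is continuous
  have hc : ContinuousOn (fun y => (fderiv ℝ g y).det) D := by
    have h1 : ContinuousOn (fun y => fderiv ℝ g y) D :=
      hS.smAB.continuousOn_fderiv_of_isOpen hDo (by simp)
    exact ContinuousLinearMap.continuous_det.comp_continuousOn h1
  by_contra hcon
  push Not at hcon
  obtain ⟨⟨y₁, h11, h12, h13⟩, ⟨y₂, h21, h22, h23⟩⟩ := hcon
  have e1 : (fderiv ℝ g y₁).det = -1 := by
    have := hS.det y₁ h11 h12
    rcases eq_or_eq_neg_of_abs_eq this with h | h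
    · exact absurd h h13
    · exact h
  have e2 : (fderiv ℝ g y₂).det = 1 := by
    have := hS.det y₂ h21 h22
    rcases eq_or_eq_neg_of_abs_eq this with h | h
    · exact h
    · exact absurd h h23
  have hiv := hDp.intermediate_value (f := fun y => (fderiv ℝ g y).det)
    (show y₁ ∈ D from ⟨h11, h12⟩) (show y₂ ∈ D from ⟨h21, h22⟩) hc
  have h0 : (0 : ℝ) ∈ Icc ((fderiv ℝ g y₁).det) ((fderiv ℝ g y₂).det) := by
    rw [e1, e2]
    constructor <;> norm_num
  obtain ⟨y, hy, hy0⟩ := hiv h0
  have := hS.det y hy.1 hy.2
  have hy0' : (fderiv ℝ (fun y => B (A.symm y)) y).det = 0 := hy0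
  rw [hy0', abs_zero] at this
  exact zero_ne_one this

end

end Pool.Agent.H6.ST
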