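import Pool.Agent.H6.ST.OR.Defs

/-! # The sharp trichotomy (ST), row ST-OR2: the orientation of the second chart can be changed -/

set_option autoImplicit false

namespace Pool.Agent.H6.ST

open MeasureTheory Set Pool.Agent.H68.VD Pool.Agent.H68.GM
open scoped ENNReal ContDiff

noncomputable section

/-- The reflection `(z₀, z₁) ↦ (z₁, z₀)`. -/
def or2_sw : Eu 2 ≃ₗᵢ[ℝ] Eu 2 := LinearIsometryEquiv.piLpCongrLeft 2 ℝ ℝ (Equiv.swap 0 1)

theorem or2_sw_apply (y : Eu 2) (k : Fin 2) : or2_sw y k = y (Equiv.swap 0 1 k) := by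
  unfold or2_sw
  rw [LinearIsometryEquiv.piLpCongrLeft_apply]
  simp [Equiv.piCongrLeft', Equiv.symm_swap]

theorem or2_sw_sw (y : Eu 2) : or2_sw (or2_sw y) = y := by
  ext k
  rw [or2_sw_apply, or2_sw_apply, Equiv.swap_apply_self]

theorem or2_symm (y : Eu 2) : or2_sw.symm y = or2_sw y := by
  rw [LinearIsometryEquiv.symm_apply_eq, or2_sw_sw]

theorem or2_det : ((or2_sw : Eu 2 ≃L[ℝ] Eu 2) : Eu 2 →L[ℝ] Eu 2).det = -1 := by
  rw [ContinuousLinearMap.det,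
    ← LinearMap.det_toMatrix (EuclideanSpace.basisFun (Fin 2) ℝ).toBasis, Matrix.det_fin_two]
  simp only [LinearMap.toMatrix_apply, OrthonormalBasis.coe_toBasis_repr_apply,
    OrthonormalBasis.coe_toBasis, EuclideanSpace.basisFun_apply, EuclideanSpace.basisFun_repr,
    ContinuousLinearMap.coe_coe, ContinuousLinearEquiv.coe_coe,
    LinearIsometryEquiv.coe_toContinuousLinearEquiv, or2_sw_apply]
  simp

/-- The continuous linear map of the reflection. -/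
def or2_L : Eu 2 →L[ℝ] Eu 2 := ((or2_sw : Eu 2 ≃L[ℝ] Eu 2) : Eu 2 →L[ℝ] Eu 2)

theorem or2_L_apply (y : Eu 2) : or2_L y = or2_sw y := rfl

theorem or2_fderiv (f : Eu 2 → Eu 2) (y : Eu 2) :
    fderiv ℝ (fun y => or2_sw (f y)) y = or2_L.comp (fderiv ℝ f y) :=
  (or2_sw : Eu 2 ≃L[ℝ] Eu 2).comp_fderiv

theorem or2_fderiv_right (g : Eu 2 → Eu 2) (y : Eu 2) :
    fderiv ℝ (fun z => g (or2_sw z)) y = (fderiv ℝ g (or2_sw y)).comp or2_L :=
  (or2_sw : Eu 2 ≃L[ℝ] Eu 2).comp_right_fderiv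

theorem or2_norm_left (T : Eu 2 →L[ℝ] Eu 2) : ‖or2_L.comp T‖ ≤ ‖T‖ := by
  refine ContinuousLinearMap.opNorm_le_bound _ (norm_nonneg _) fun x => ?_
  rw [ContinuousLinearMap.comp_apply, or2_L_apply, LinearIsometryEquiv.norm_map]
  exact T.le_opNorm x

theorem or2_norm_right (T : Eu 2 →L[ℝ] Eu 2) : ‖T.comp or2_L‖ ≤ ‖T‖ := by
  refine ContinuousLinearMap.opNorm_le_bound _ (norm_nonneg _) fun x => ?_
  rw [ContinuousLinearMap.comp_apply]
  refine (T.le_opNorm _).trans ?_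
  rw [or2_L_apply, LinearIsometryEquiv.norm_map]

theorem or2_norm_two (f : Eu 2 → Eu 2) (y : Eu 2) :
    ‖fderiv ℝ (fderiv ℝ (fun y => or2_sw (f y))) y‖ ≤ ‖fderiv ℝ (fderiv ℝ f) y‖ := by
  have h1 : fderiv ℝ (fun y => or2_sw (f y)) = fun y =>
      ((ContinuousLinearEquiv.refl ℝ (Eu 2)).arrowCongr (or2_sw : Eu 2 ≃L[ℝ] Eu 2))
        (fderiv ℝ f y) := by
    funext y
    rw [or2_fderiv]
    ext x
    rfl
  rw [h1]
  have h2 := ((ContinuousLinearEquiv.refl ℝ (Eu 2)).arrowCongr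
    (or2_sw : Eu 2 ≃L[ℝ] Eu 2)).comp_fderiv (f := fderiv ℝ f) (x := y)
  change ‖fderiv ℝ (((ContinuousLinearEquiv.refl ℝ (Eu 2)).arrowCongr
    (or2_sw : Eu 2 ≃L[ℝ] Eu 2)) ∘ fderiv ℝ f) y‖ ≤ _
  rw [h2]
  refine ContinuousLinearMap.opNorm_le_bound _ (ContinuousLinearMap.opNorm_nonneg _) fun x => ?_
  have h3 := (fderiv ℝ (fderiv ℝ f) y).le_opNorm x
  refine le_trans ?_ h3
  have h4 : (((ContinuousLinearEquiv.refl ℝ (Eu 2)).arrowCongr
    (or2_sw : Eu 2 ≃L[ℝ] Eu 2) : (Eu 2 →L[ℝ] Eu 2) ≃L[ℝ] (Eu 2 →L[ℝ] Eu 2)) :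
      (Eu 2 →L[ℝ] Eu 2) →L[ℝ] (Eu 2 →L[ℝ] Eu 2)).comp (fderiv ℝ (fderiv ℝ f) y) x =
      or2_L.comp (fderiv ℝ (fderiv ℝ f) y x) := by
    ext z
    rfl
  rw [h4]
  exact or2_norm_left _

theorem or2_box {r : ℝ} (y : Eu 2) : or2_sw y ∈ obox (fun _ : Fin 2 => -r) (fun _ => r) ↔
    y ∈ obox (fun _ : Fin 2 => -r) (fun _ => r) := by
  have key : ∀ y : Eu 2, y ∈ obox (fun _ : Fin 2 => -r) (fun _ => r) →
      or2_sw y ∈ obox (fun _ : Fin 2 => -r) (fun _ => r) := by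
    intro y hy k
    rw [or2_sw_apply]
    exact hy _
  refine ⟨fun h => ?_, key y⟩
  have := key _ h
  rwa [or2_sw_sw] at this

theorem or_refl : ORrefl := by
  intro S _ A B hS hdet
  have hsm : ContDiff ℝ ∞ (fun z : Eu 2 => or2_sw z) := or2_sw.contDiff
  let B' : OpenPartialHomeomorph S (Eu 2) := B.transHomeomorph or2_sw.toHomeomorph
  have hB : ∀ x, B' x = or2_sw (B x) := fun x => rfl
  have hBs : ∀ y, B'.symm y = B.symm (or2_sw y) := fun y => by
    change B.symm (or2_sw.symm y) = _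
    rw [or2_symm]
  have hsrc : B'.source = B.source := rfl
  have htgt : ∀ y, y ∈ B'.target ↔ or2_sw y ∈ B.target := fun y => by
    change or2_sw.symm y ∈ B.target ↔ _
    rw [or2_symm]
  have hf : (fun y => B' (A.symm y)) = fun y => or2_sw (B (A.symm y)) := rfl
  have hg : (fun y => A (B'.symm y)) = fun y => A (B.symm (or2_sw y)) := by
    funext y; rw [hBs]
  have hd : ∀ y, (fderiv ℝ (fun y => B' (A.symm y)) y).det =
      -(fderiv ℝ (fun y => B (A.symm y)) y).det := by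
    intro y
    rw [hf, or2_fderiv]
    have h1 : (or2_L.comp (fderiv ℝ (fun y => B (A.symm y)) y)).det =
        or2_L.det * (fderiv ℝ (fun y => B (A.symm y)) y).det := by
      simp only [ContinuousLinearMap.det]
      rw [← LinearMap.det_comp]
      rfl
    rw [h1, show or2_L.det = -1 from or2_det]
    ring
  refine ⟨B', ⟨hS.tgtA, ?_, hS.cover, ?_, ?_, ?_, ?_, ?_⟩, ?_⟩
  · obtain ⟨r, hr, hr'⟩ := hS.tgtB
    refine ⟨r, hr, ?_⟩
    ext y
    rw [htgt, hr', or2_box]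
  · intro y hy hy'
    rw [htgt] at hy
    rw [hBs] at hy'
    have h1 := hS.pt _ hy hy'
    have h2 := or2_sw_sw y
    rw [h1, map_zero] at h2
    exact h2.symm
  · rw [hf]
    exact hsm.comp_contDiffOn hS.smAB
  · rw [hg]
    have h1 := hS.smBA.comp (f := fun z : Eu 2 => or2_sw z)
      (s := {y | y ∈ B'.target ∧ B'.symm y ∈ A.source}) hsm.contDiffOn (by
        rintro y ⟨hy, hy'⟩
        rw [hBs] at hy'
        exact ⟨(htgt y).1 hy, hy'⟩)
    exact h1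
  · intro y h1 h2
    rw [hd, abs_neg]
    exact hS.det y h1 h2
  · obtain ⟨C, hC⟩ := hS.bds
    refine ⟨C, fun d hd0 y hy hy' => ?_⟩
    obtain ⟨h1, h2, h3⟩ := hC d hd0 y hy hy'
    refine ⟨?_, ?_, ?_⟩
    · rw [hf, or2_fderiv]
      exact (or2_norm_left _).trans h1
    · rw [hg, hB]
      have h4 := or2_fderiv_right (fun z => A (B.symm z)) (or2_sw (B (A.symm y)))
      rw [or2_sw_sw] at h4
      rw [h4]
      exact (or2_norm_right _).trans h2
    · rw [hf]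
      exact (or2_norm_two _ _).trans h3
  · intro y h1 h2
    rw [hd, hdet y h1 h2, neg_neg]

end

end Pool.Agent.H6.ST
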